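import Pool.Agent.H55.BP.Targets

/-!
Board bpl (`MP_bacf0e_co`): rows PAR, N33 (helper67).
-/

set_option autoImplicit false

open Finset

namespace Pool.Agent.H67.BP

open Pool.Agent.H55.BP

theorem arg_neg_cases (z : ℂ) (hz : z ≠ 0) : ∃ s : ℤ, Complex.arg (-z) =
    Complex.arg z + Real.pi * (2 * s + 1) := by
  rcases lt_trichotomy z.im 0 with h | h | h
  · refine ⟨0, ?_⟩
    rw [Complex.arg_neg_eq_arg_add_pi_of_im_neg h]
    push_cast
    ring
  · have hre : z.re ≠ 0 := by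
      intro h2
      exact hz (Complex.ext h2 h)
    rcases lt_or_gt_of_ne hre with h2 | h2
    · refine ⟨-1, ?_⟩
      have e1 : z.arg = Real.pi := Complex.arg_eq_pi_iff.2 ⟨h2, h⟩
      have e2 : (-z).arg = 0 := Complex.arg_eq_zero_iff.2 ⟨by simpa using h2.le, by simp [h]⟩
      rw [e1, e2]
      push_cast
      ring
    · refine ⟨0, ?_⟩
      have e1 : z.arg = 0 := Complex.arg_eq_zero_iff.2 ⟨h2.le, h⟩
      have e2 : (-z).arg = Real.pi := Complex.arg_eq_pi_iff.2 ⟨by simpa using h2, by simp [h]⟩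
      rw [e1, e2]
      push_cast
      ring
  · refine ⟨-1, ?_⟩
    rw [Complex.arg_neg_eq_arg_sub_pi_of_im_pos h]
    push_cast
    ring

theorem unit_arg (z : ℂ) (hz : z ≠ 0) : z / ‖z‖ = Complex.exp (Complex.I * Complex.arg z) := by
  have h1 : (‖z‖ : ℂ) ≠ 0 := Complex.ofReal_ne_zero.2 (norm_ne_zero_iff.2 hz)
  rw [div_eq_iff h1, mul_comm Complex.I, mul_comm (Complex.exp _)]
  exact (Complex.norm_mul_exp_arg_mul_I z).symm

theorem arg_rel (z z' : ℂ) (t : ℝ) (hz : z ≠ 0) (hz' : z' ≠ 0)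
    (h : Complex.exp (Complex.I * t) * (z / ‖z‖) = z' / ‖z'‖) :
    ∃ n : ℤ, t = Complex.arg z' - Complex.arg z + 2 * Real.pi * n := by
  rw [unit_arg z hz, unit_arg z' hz', ← Complex.exp_add, Complex.exp_eq_exp_iff_exists_int] at h
  obtain ⟨n, hn⟩ := h
  refine ⟨n, ?_⟩
  have h1 : Complex.I * ((t + Complex.arg z : ℝ) : ℂ) =
      Complex.I * ((Complex.arg z' + 2 * Real.pi * n : ℝ) : ℂ) := by
    push_cast
    linear_combination hn
  have h2 := mul_left_cancel₀ Complex.I_ne_zero h1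
  have h3 : t + Complex.arg z = Complex.arg z' + 2 * Real.pi * n := by exact_mod_cast h2
  linarith

theorem pf_PAR : T_PAR := by
  intro p q W V hp hq hpq hW hV hR
  have hn : ∀ i j k : Fin 3, ∃ n : ℤ, i ≠ k → W i j k =
      Complex.arg (q j - p k) - Complex.arg (p i - p k) + 2 * Real.pi * n := by
    intro i j k
    by_cases h : i = k
    · exact ⟨0, fun h' => absurd h h'⟩
    · obtain ⟨n, hn⟩ := arg_rel _ _ _ (sub_ne_zero.2 (hp i k h))
        (sub_ne_zero.2 (hpq k j).symm) (hW i j k h)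
      exact ⟨n, fun _ => hn⟩
  have hm : ∀ i j l : Fin 3, ∃ n : ℤ, j ≠ l → V i j l =
      Complex.arg (q j - q l) - Complex.arg (p i - q l) + 2 * Real.pi * n := by
    intro i j l
    by_cases h : j = l
    · exact ⟨0, fun h' => absurd h h'⟩
    · obtain ⟨n, hn⟩ := arg_rel _ _ _ (sub_ne_zero.2 (hpq i l))
        (sub_ne_zero.2 (hq j l h)) (hV i j l h)
      exact ⟨n, fun _ => hn⟩
  have hPP : ∀ i k : Fin 3, ∃ s : ℤ, i ≠ k → Complex.arg (p k - p i) =
      Complex.arg (p i - p k) + Real.pi * (2 * s + 1) := by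
    intro i k
    by_cases h : i = k
    · exact ⟨0, fun h' => absurd h h'⟩
    · obtain ⟨s, hs⟩ := arg_neg_cases _ (sub_ne_zero.2 (hp i k h))
      rw [neg_sub] at hs
      exact ⟨s, fun _ => hs⟩
  have hQQ : ∀ j l : Fin 3, ∃ s : ℤ, j ≠ l → Complex.arg (q l - q j) =
      Complex.arg (q j - q l) + Real.pi * (2 * s + 1) := by
    intro i k
    by_cases h : i = k
    · exact ⟨0, fun h' => absurd h h'⟩
    · obtain ⟨s, hs⟩ := arg_neg_cases _ (sub_ne_zero.2 (hq i k h))
      rw [neg_sub] at hs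
      exact ⟨s, fun _ => hs⟩
  have hPQ : ∀ i j : Fin 3, ∃ s : ℤ, Complex.arg (p i - q j) =
      Complex.arg (q j - p i) + Real.pi * (2 * s + 1) := by
    intro i j
    obtain ⟨s, hs⟩ := arg_neg_cases _ (sub_ne_zero.2 (hpq i j).symm)
    rw [neg_sub] at hs
    exact ⟨s, hs⟩
  choose n hn using hn
  choose m hm using hm
  choose PP hPP using hPP
  choose QQ hQQ using hQQ
  choose PQ hPQ using hPQ
  have hpi := Real.pi_ne_zero
  have hE : ∀ i j k l : Fin 3, i ≠ k → j ≠ l →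
      PP i k + QQ j l + 1 + PQ i l - PQ k j + n i j k - m i j l + m k l j - n k l i = 0 := by
    intro i j k l hik hjl
    have h1 := hR i j k l hik hjl
    rw [hn i j k hik, hm i j l hjl, hm k l j hjl.symm, hn k l i hik.symm] at h1
    have h2 := hPP i k hik
    have h3 := hQQ j l hjl
    have h4 := hPQ i l
    have h5 := hPQ k j
    have h6 : 2 * Real.pi * ((PP i k + QQ j l + 1 + PQ i l - PQ k j + n i j k - m i j l +
        m k l j - n k l i : ℤ) : ℝ) = 0 := by
      push_cast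
      linear_combination h1 - h2 - h3 - h4 + h5
    have h7 : ((PP i k + QQ j l + 1 + PQ i l - PQ k j + n i j k - m i j l +
        m k l j - n k l i : ℤ) : ℝ) = 0 := by
      rcases mul_eq_zero.1 h6 with h | h
      · exact absurd h (by positivity)
      · exact h
    exact_mod_cast h7
  have hQ2 : ∀ j l : Fin 3, j ≠ l → QQ j l + QQ l j + 1 = 0 := by
    intro j l hjl
    have h2 := hQQ j l hjl
    have h3 := hQQ l j hjl.symm
    have h6 : 2 * Real.pi * ((QQ j l + QQ l j + 1 : ℤ) : ℝ) = 0 := by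
      push_cast
      linear_combination - h2 - h3
    have h7 : ((QQ j l + QQ l j + 1 : ℤ) : ℝ) = 0 := by
      rcases mul_eq_zero.1 h6 with h | h
      · exact absurd h (by positivity)
      · exact h
    exact_mod_cast h7
  have d01 : (0 : Fin 3) ≠ 1 := by decide
  have d02 : (0 : Fin 3) ≠ 2 := by decide
  have d12 : (1 : Fin 3) ≠ 2 := by decide
  have a1 := hE 0 0 1 1 d01 d01
  have a2 := hE 0 0 1 2 d01 d02
  have a3 := hE 0 1 1 2 d01 d12
  have a4 := hE 0 1 1 0 d01 d01.symm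
  have a5 := hE 0 2 1 0 d01 d02.symm
  have a6 := hE 0 2 1 1 d01 d12.symm
  have b1 := hE 0 0 2 1 d02 d01
  have b2 := hE 0 0 2 2 d02 d02
  have b3 := hE 0 1 2 2 d02 d12
  have b4 := hE 0 1 2 0 d02 d01.symm
  have b5 := hE 0 2 2 0 d02 d02.symm
  have b6 := hE 0 2 2 1 d02 d12.symm
  have c1 := hE 1 0 2 1 d12 d01
  have c2 := hE 1 0 2 2 d12 d02
  have c3 := hE 1 1 2 2 d12 d12
  have c4 := hE 1 1 2 0 d12 d01.symm
  have c5 := hE 1 2 2 0 d12 d02.symm
  have c6 := hE 1 2 2 1 d12 d12.symm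
  have q1 := hQ2 0 1 d01
  have q2 := hQ2 0 2 d02
  have q3 := hQ2 1 2 d12
  omega

theorem pf_N33 (hPAR : T_PAR) (hANG : T_ANG) : T_N33 := by
  intro p q S hS hd
  have hex : ∀ i j, ∃ γ : Path (p i) (q j), Set.range γ ⊆ S i j := by
    intro i j
    refine ⟨(hS i j).somePath, ?_⟩
    rintro _ ⟨t, rfl⟩
    exact (hS i j).somePath_mem t
  choose γ hγ using hex
  have hd' : ∀ i j k l, i ≠ k → j ≠ l → Disjoint (Set.range (γ i j)) (Set.range (γ k l)) :=
    fun i j k l hik hjl => (hd i j k l hik hjl).mono (hγ i j) (hγ k l)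
  obtain ⟨W, V, hW, hV, hR⟩ := hANG p q γ hd'
  have hp : ∀ i j, p i ∈ S i j := fun i j => (hS i j).source_mem
  have hq : ∀ i j, q j ∈ S i j := fun i j => (hS i j).target_mem
  have hex : ∀ i : Fin 3, ∃ j : Fin 3, j ≠ i := by decide
  refine hPAR p q W V ?_ ?_ ?_ hW hV hR
  · intro i k hik h
    have d01 : (0 : Fin 3) ≠ 1 := by decide
    exact Set.disjoint_left.1 (hd i 0 k 1 hik d01) (hp i 0) (h ▸ hp k 1)
  · intro j l hjl h
    have d01 : (0 : Fin 3) ≠ 1 := by decide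
    exact Set.disjoint_left.1 (hd 0 j 1 l d01 hjl) (hq 0 j) (h ▸ hq 1 l)
  · intro i j h
    obtain ⟨k, hk⟩ := hex i
    obtain ⟨l, hl⟩ := hex j
    exact Set.disjoint_left.1 (hd i l k j hk.symm hl) (hp i l) (h ▸ hq k j)

end Pool.Agent.H67.BP
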